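import Pool.Agent.helper35.DR.SpecT

/-!
# Module TFW of project dr (MP_baa4d7_al): from projective characters to characters
-/

set_option autoImplicit false

namespace Pool.Agent.DR

open Pool.Agent.helper58.DC Pool.Agent.DI
open scoped MonoidAlgebra TensorProduct

/-- a representation whose character has norm one is irreducible (copy of `Pool.Agent.DD.NRM`) -/
private theorem TFW_nrm (G : Type) [Group G] [Fintype G] (V : Type) [AddCommGroup V] [Module ℂ V]
    [FiniteDimensional ℂ V] (ρ : Representation ℂ G V)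
    (h : ∑ g, ρ.character g * ρ.character g⁻¹ = (Nat.card G : ℂ)) : ρ.IsIrreducible := by
  classical
  have hne : (Nat.card G : ℂ) ≠ 0 := by exact_mod_cast Nat.card_pos.ne'
  have hinv : Invertible (Nat.card G : ℂ) := invertibleOfNonzero hne
  have h1 := Representation.card_inv_mul_sum_char_mul_char_eq_finrank ρ ρ
  rw [h, inv_mul_cancel₀ hne] at h1
  have h2 : Module.finrank ℂ (Representation.IntertwiningMap ρ ρ) = 1 := by
    exact_mod_cast h1.symm
  have hnt : Nontrivial V := by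
    by_contra hV
    rw [not_nontrivial_iff_subsingleton] at hV
    have h3 : Subsingleton (Representation.IntertwiningMap ρ ρ) := by
      refine ⟨fun f g => ?_⟩
      apply Representation.IntertwiningMap.ext
      exact Subsingleton.elim _ _
    rw [Module.finrank_zero_of_subsingleton] at h2
    exact zero_ne_one h2
  have hid : Representation.IntertwiningMap.id ρ ≠ 0 := by
    intro h0
    obtain ⟨v, hv⟩ := exists_ne (0 : V)
    have := congrArg (fun f : Representation.IntertwiningMap ρ ρ => f v) h0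
    exact hv this
  have h3 := (finrank_eq_one_iff_of_nonzero' (Representation.IntertwiningMap.id ρ) hid).mp h2
  rw [Representation.irreducible_iff_isSimpleModule_asModule, isSimpleModule_iff]
  have hnt' : Nontrivial ρ.asModule := hnt
  have hnz : NeZero (Nat.card G : ℂ) := ⟨hne⟩
  refine { exists_pair_ne := ⟨⊥, ⊤, bot_ne_top⟩, eq_bot_or_eq_top := ?_ }
  intro N
  obtain ⟨N', hN⟩ := MonoidAlgebra.Submodule.exists_isCompl (k := ℂ) (G := G) N
  let P : ρ.asModule →ₗ[ℂ[G]] ρ.asModule := N.subtype ∘ₗ N.projectionOnto N' hN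
  obtain ⟨c, hc⟩ := h3 ((Representation.IntertwiningMap.equivLinearMapAsModule ρ ρ).symm P)
  have hP : ∀ v : V, (P v : V) = c • v := by
    intro v
    have := congrArg (fun f : Representation.IntertwiningMap ρ ρ => f v) hc
    exact this.symm
  by_cases hc0 : c = 0
  · left
    rw [eq_bot_iff]
    intro x hx
    have h5 : P x = x := by
      change ((N.projectionOnto N' hN x : N) : ρ.asModule) = x
      have := Submodule.projectionOnto_apply_left hN ⟨x, hx⟩
      rw [this]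
    have h6 := hP x
    rw [hc0, zero_smul] at h6
    rw [h5] at h6
    rw [Submodule.mem_bot]
    exact h6
  · right
    rw [eq_top_iff]
    intro x _
    have h6 := hP (c⁻¹ • (show V from x))
    rw [smul_smul, mul_inv_cancel₀ hc0, one_smul] at h6
    have h7 : P (show ρ.asModule from (c⁻¹ • (show V from x))) ∈ N :=
      (N.projectionOnto N' hN _).2
    rw [show x = P (show ρ.asModule from (c⁻¹ • (show V from x))) from h6.symm]
    exact h7

section eqv

variable {Γ Q : Type} [Group Γ] [Group Q] (q : Γ →* Q) (S : Subgroup Γ) (N : Subgroup Q)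
  (s : Q → Γ) (hs : ∀ a, s a ∈ S ∧ q (s a) = a)

/-- the elements of `S` over `N` in coordinates -/
private def TFW_equiv : (S ⊓ N.comap q : Subgroup Γ) ≃ N × (S ⊓ q.ker : Subgroup Γ) where
  toFun x := (⟨q x, x.2.2⟩, ⟨(s (q x))⁻¹ * x, ⟨S.mul_mem (S.inv_mem (hs _).1) x.2.1, by
    change q ((s (q x))⁻¹ * x) = 1
    rw [map_mul, map_inv, (hs _).2, inv_mul_cancel]⟩⟩)
  invFun p := ⟨s p.1 * p.2, ⟨S.mul_mem (hs _).1 p.2.2.1, by
    change q (s p.1 * p.2) ∈ N
    have h : q (p.2 : Γ) = 1 := p.2.2.2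
    rw [map_mul, (hs _).2, h, mul_one]
    exact p.1.2⟩⟩
  left_inv x := Subtype.ext (mul_inv_cancel_left _ _)
  right_inv p := by
    have h : q (p.2 : Γ) = 1 := p.2.2.2
    have h1 : q (s (p.1 : Q) * (p.2 : Γ)) = p.1 := by rw [map_mul, (hs _).2, h, mul_one]
    refine Prod.ext (Subtype.ext h1) (Subtype.ext ?_)
    change (s (q (s (p.1 : Q) * (p.2 : Γ))))⁻¹ * (s (p.1 : Q) * (p.2 : Γ)) = p.2
    rw [h1, inv_mul_cancel_left]

end eqv

private theorem TFW_rep {Γ Q : Type} [Group Γ] [Group Q] (q : Γ →* Q) (S : Subgroup Γ)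
    (ψ : Γ → ℂ) (α : Q → Q → ℂˣ) (V : Type) [AddCommGroup V] [Module ℂ V]
    (T : Γ → Module.End ℂ V) (hT : AscT S q ψ α T) (N : Subgroup Q)
    (W : Type) [AddCommGroup W] [Module ℂ W] (S' : Q → Module.End ℂ W) (h1 : S' 1 = 1)
    (h2 : ∀ n ∈ N, ∀ n' ∈ N, S' n * S' n' = (((α⁻¹ : Q → Q → ℂˣ) n n' : ℂˣ) : ℂ) • S' (n * n')) :
    ∃ ρ : Representation ℂ (S ⊓ N.comap q : Subgroup Γ) (V ⊗[ℂ] W),
      ∀ x : (S ⊓ N.comap q : Subgroup Γ), ρ x = TensorProduct.map (T x) (S' (q x)) := by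
  refine ⟨{ toFun := fun x => TensorProduct.map (T x) (S' (q x)), map_one' := ?_, map_mul' := ?_ },
    fun x => rfl⟩
  · change TensorProduct.map (T 1) (S' (q 1)) = 1
    rw [hT.one, map_one, h1]
    exact TensorProduct.map_one
  · intro x y
    change TensorProduct.map (T ((x : Γ) * y)) (S' (q ((x : Γ) * y))) =
      TensorProduct.map (T x) (S' (q x)) * TensorProduct.map (T y) (S' (q y))
    rw [← TensorProduct.map_mul, hT.mul x x.2.1 y y.2.1, h2 (q x) x.2.2 (q y) y.2.2, map_mul,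
      TensorProduct.map_smul_left, TensorProduct.map_smul_right, smul_smul, Pi.inv_apply,
      Pi.inv_apply, Units.mul_inv, one_smul]

theorem TFW (hTNM : TNM_stmt) : TFW_stmt := by
  classical
  intro Γ Q _ _ _ _ q S hSq ψ hψ α hα V _ _ _ T hT N σ k hσ φ hφ hφ0
  obtain ⟨W, iW1, iW2, iW3, S', hS1, hSm, hSk, hSt⟩ := hσ.rep
  obtain ⟨ρ, hρ⟩ := TFW_rep q S ψ α V T hT N W S' hS1 hSm
  have hch : ∀ x : (S ⊓ N.comap q : Subgroup Γ), ρ.character x = φ x := by
    intro x
    have h1 : ρ.character x = LinearMap.trace ℂ (V ⊗[ℂ] W) (ρ x) := rfl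
    rw [h1, hρ x, LinearMap.trace_tensorProduct', ← hSt (q x) x.2.2, hφ x x.2]
  -- sections
  have hex : ∀ a : Q, ∃ s, s ∈ S ∧ q s = a := by
    intro a
    have : a ∈ S.map q := by rw [hSq]; exact Subgroup.mem_top a
    obtain ⟨s, hs, h⟩ := this
    exact ⟨s, hs, h⟩
  choose s hs using hex
  have hfL : Fintype (S ⊓ N.comap q : Subgroup Γ) := Fintype.ofFinite _
  have hfN : Fintype N := Fintype.ofFinite _
  have hfH : Fintype (S ⊓ q.ker : Subgroup Γ) := Fintype.ofFinite _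
  have hcard : Nat.card (S ⊓ N.comap q : Subgroup Γ) =
      Nat.card N * Nat.card (S ⊓ q.ker : Subgroup Γ) := by
    rw [Nat.card_congr (TFW_equiv q S N s hs), Nat.card_prod]
  have hfib : ∀ n : N, ∑ h : (S ⊓ q.ker : Subgroup Γ), φ (s n * h) * φ (s n * h)⁻¹ =
      σ n * σ (n : Q)⁻¹ * ((((α⁻¹ : Q → Q → ℂˣ) n (n : Q)⁻¹ : ℂˣ) : ℂ))⁻¹ *
        Nat.card (S ⊓ q.ker : Subgroup Γ) := by
    intro n
    have h1 := hTNM Γ Q q S ψ hψ α hα V T hT (s n) (hs n).1
    rw [← finsum_set_coe_eq_finsum_mem, finsum_eq_sum_of_fintype] at h1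
    rw [← h1, Finset.mul_sum]
    refine Finset.sum_congr rfl fun h _ => ?_
    have hq : q (h : Γ) = 1 := h.2.2
    have hqn : q (s n * h) = n := by rw [map_mul, (hs n).2, hq, mul_one]
    have hL : (s n * h : Γ) ∈ S ⊓ N.comap q :=
      ⟨S.mul_mem (hs n).1 h.2.1, by change q (s n * h) ∈ N; rw [hqn]; exact n.2⟩
    rw [hφ _ hL, hφ _ (inv_mem hL), map_inv, hqn, (hs n).2, Pi.inv_apply, Pi.inv_apply,
      Units.val_inv_eq_inv_val, inv_inv]
    have hα0 : ((α (n : Q) (n : Q)⁻¹ : ℂˣ) : ℂ) ≠ 0 := Units.ne_zero _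
    field_simp
  have hnorm : ∑ x : (S ⊓ N.comap q : Subgroup Γ), ρ.character x * ρ.character x⁻¹ =
      (Nat.card (S ⊓ N.comap q : Subgroup Γ) : ℂ) := by
    have h1 : ∑ x : (S ⊓ N.comap q : Subgroup Γ), ρ.character x * ρ.character x⁻¹ =
        ∑ p : N × (S ⊓ q.ker : Subgroup Γ), φ (s p.1 * p.2) * φ (s p.1 * p.2)⁻¹ := by
      rw [← Equiv.sum_comp (TFW_equiv q S N s hs).symm]
      refine Finset.sum_congr rfl fun p _ => ?_
      rw [hch, hch]
      rfl
    rw [h1, Fintype.sum_prod_type]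
    have h2 : ∀ n : N, ∑ h : (S ⊓ q.ker : Subgroup Γ), φ (s n * h) * φ (s n * h)⁻¹ =
      σ n * σ (n : Q)⁻¹ * ((((α⁻¹ : Q → Q → ℂˣ) n (n : Q)⁻¹ : ℂˣ) : ℂ))⁻¹ *
        Nat.card (S ⊓ q.ker : Subgroup Γ) := hfib
    rw [Finset.sum_congr rfl fun n _ => h2 n, ← Finset.sum_mul]
    have h3 := hσ.norm
    rw [← finsum_set_coe_eq_finsum_mem, finsum_eq_sum_of_fintype] at h3
    rw [hcard, Nat.cast_mul, ← h3]
    rfl
  refine ⟨⟨hφ0, V ⊗[ℂ] W, inferInstance, inferInstance, inferInstance, ρ,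
    TFW_nrm _ _ ρ hnorm, ?_⟩, ?_⟩
  · funext x
    exact hch x
  · intro x hx
    have hq : q x = 1 := hx.2
    have hL : x ∈ S ⊓ N.comap q := ⟨hx.1, by change q x ∈ N; rw [hq]; exact N.one_mem⟩
    rw [hφ x hL, hq, hSt 1 N.one_mem, hS1, hT.tr x hx, LinearMap.trace_one, hSk, mul_comm]

end Pool.Agent.DR
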