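import Pool.Agent.helper35.DR.SpecT

/-!
# Module TIF of project dr (MP_baa4d7_al): inflation to the cover
-/

set_option autoImplicit false

namespace Pool.Agent.DR

open Pool.Agent.helper58.DC Pool.Agent.DI

private theorem TIF_ext0 {K Γ : Type} [Group K] [Group Γ] (i : K →* Γ)
    (hi : Function.Injective i) (ψ : K → ℂ) (g : K) : ext0 i ψ (i g) = ψ g :=
  hi.extend_apply ψ 0 g

theorem TIF : TIF_stmt := by
  intro G E A _ _ _ X n S ψ α hA
  obtain ⟨V, i1, i2, i3, T, hT⟩ := hA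
  refine ⟨V, i1, i2, i3, fun x => T (fcE X n x), ?_, ?_, ?_⟩
  · change T (fcE X n 1) = 1
    rw [map_one, hT.one]
  · intro x hx y hy
    change T (fcE X n x) * T (fcE X n y) = _ • T (fcE X n (x * y))
    have h1 : X.proj (fcE X n x) = ((XC X n).proj x).a := x.2
    have h2 : X.proj (fcE X n y) = ((XC X n).proj y).a := y.2
    rw [map_mul, hT.mul _ hx _ hy, h1, h2]
  · intro x hx
    obtain ⟨g, rfl⟩ := ((XC X n).exact x).1 hx.2
    have h1 : fcE X n ((XC X n).inc g) = X.inc g := rfl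
    change _ = LinearMap.trace ℂ V (T (fcE X n ((XC X n).inc g)))
    rw [TIF_ext0 _ (XC X n).inc_injective, h1, ← hT.tr (X.inc g), TIF_ext0 _ X.inc_injective]
    exact ⟨hx.1, (X.exact _).2 ⟨g, rfl⟩⟩

end Pool.Agent.DR
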